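import Mathlib
import Pool.Agent.R443.PS

/-!
# MP_26251e_nt, Q2: the case `p = 3`, and a disproof of the claim on equality

For `p = 3` and `m ≡ 2 (mod 3)` the lower bound of Q2 is true for all `n ≥ 1`, but it is an equality for
infinitely many `n` if and only if `m` is not `8` modulo `9`.  For `m ≡ 8 (mod 9)` it is never an equality.

Proof.  Put `s = 3 x / (1 - x)^2` and `F = ∑ d_m(n) x^n`.  Then `F(x) = (1 + s(x))^m F(x^3)` and
`s^3 = 9 S (1 + s)^2` with `S = s(x^3)`.  So the operator `U` (the coefficient of `x^n` in `U f` is the one of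
`x^(3n)` in `f`) maps `s ℤ[s]` to `3 s ℤ[s]`, and `U ((1+s)^m) - 1` is `(3/2) m^2 (m+1) s` modulo `27 s ℤ[s]`.
-/

set_option autoImplicit false

namespace Pool.Agent.Results.MP_26251e_nt.QTwoFailsForThree

open PowerSeries Finset Pool.Agent.R443.PS

/-- `d p m n` is the coefficient of `x^n` in
`(1 - x)^(-m) * ∏_{j ≥ 0} (1 - x^(p^j))^(-(p-1)m)`.  For `p ≥ 2` the factors with `j > n` do not
influence this coefficient, because `p^j > n` for them; so the product over `0 ≤ j ≤ n` is taken.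
Here `invOfUnit (1 - X ^ a) 1` is the inverse power series of `1 - X ^ a` (for `a ≥ 1`). -/
noncomputable def d (p m n : ℕ) : ℤ :=
  coeff n ((invOfUnit (1 - X : ℤ⟦X⟧) 1) ^ m *
    ∏ j ∈ range (n + 1), (invOfUnit (1 - X ^ (p ^ j) : ℤ⟦X⟧) 1) ^ ((p - 1) * m))

/-! ### The operator `U` -/

lemma h3 : (3 : ℕ) ≠ 0 := by norm_num

/-- `V g = g(x^3)` -/
noncomputable def V (g : ℤ⟦X⟧) : ℤ⟦X⟧ := expand 3 h3 g

/-- the coefficient of `x^n` in `U f` is the one of `x^(3n)` in `f` -/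
noncomputable def U (f : ℤ⟦X⟧) : ℤ⟦X⟧ := mk fun n => coeff (3 * n) f

lemma coeff_U (f : ℤ⟦X⟧) (n : ℕ) : coeff n (U f) = coeff (3 * n) f := by simp [U]

lemma U_add (f g : ℤ⟦X⟧) : U (f + g) = U f + U g := by
  ext n; simp [coeff_U]

lemma U_C_mul (a : ℤ) (f : ℤ⟦X⟧) : U (C a * f) = C a * U f := by
  ext n; rw [coeff_U, coeff_C_mul, coeff_C_mul, coeff_U]

lemma U_sum {ι : Type*} (t : Finset ι) (f : ι → ℤ⟦X⟧) : U (∑ i ∈ t, f i) = ∑ i ∈ t, U (f i) := by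
  classical
  induction t using Finset.induction_on with
  | empty => ext n; simp [coeff_U]
  | insert a t ha ih => rw [sum_insert ha, sum_insert ha, U_add, ih]

lemma U_mul_V (f g : ℤ⟦X⟧) : U (f * V g) = U f * g := by
  ext n
  rw [coeff_U, mul_comm f, V, coeff_expand_mul' h3, mul_comm (U f) g, coeff_mul,
    Finset.Nat.sum_antidiagonal_eq_sum_range_succ_mk, Nat.mul_div_cancel_left n (by norm_num : 0 < 3)]
  refine sum_congr rfl fun b hb => ?_
  have hb' := mem_range.1 hb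
  simp only [coeff_U]
  rw [Nat.mul_sub]

/-! ### The series `s` -/

/-- `w = 1/(1-x)` -/
noncomputable def w : ℤ⟦X⟧ := iv 1

lemma hw : (1 - X) * w = 1 := by
  have := mul_iv (d := 1) (by norm_num)
  rwa [pow_one] at this

lemma Vw : (1 - X ^ 3) * V w = 1 := by
  have h := congrArg (expand 3 h3) hw
  rwa [map_mul, map_sub, map_one, expand_X] at h

/-- `s = 3x/(1-x)^2` -/
noncomputable def s : ℤ⟦X⟧ := 3 * (X * w ^ 2)

lemma G_eq : (1 - X ^ 3) * w ^ 3 = 1 + s := by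
  unfold s
  have h := hw
  have h2 : ((1 - X) * w) ^ 2 = 1 := by rw [h, one_pow]
  have h3 : ((1 - X) * w) ^ 3 = 1 := by rw [h, one_pow]
  have e : (1 - X ^ 3 : ℤ⟦X⟧) * w ^ 3 = ((1 - X) * w) ^ 3 + 3 * X * w ^ 2 * ((1 - X) * w) := by ring
  rw [e, h3, h]; ring

lemma V_s : V s = 3 * (X ^ 3 * (V w) ^ 2) := by
  unfold s V
  rw [map_mul, map_mul, map_pow, expand_X, map_ofNat]

lemma modular : s ^ 3 = 9 * (1 + s) ^ 2 * V s := by
  rw [← G_eq, V_s]
  unfold s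
  have h := Vw
  have h2 : ((1 - X ^ 3) * V w) ^ 2 = 1 := by rw [h, one_pow]
  have e : 9 * ((1 - X ^ 3) * w ^ 3) ^ 2 * (3 * (X ^ 3 * (V w) ^ 2)) =
    27 * X ^ 3 * w ^ 6 * ((1 - X ^ 3) * V w) ^ 2 := by ring
  rw [e, h2]; ring

lemma U_rec (i : ℕ) :
    U (s ^ (i + 3)) = 9 * s * (U (s ^ (i + 2)) + 2 * U (s ^ (i + 1)) + U (s ^ i)) := by
  have e : s ^ (i + 3) = (s ^ (i + 2) + C 2 * s ^ (i + 1) + s ^ i) * V (9 * s) := by
    have h1 : V (9 * s) = 9 * V s := by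
      unfold V
      rw [map_mul, map_ofNat]
    have h2 : (C 2 : ℤ⟦X⟧) = 2 := map_ofNat _ 2
    rw [h1, h2, pow_add s i 3, modular]
    ring
  rw [e, U_mul_V, U_add, U_add, U_C_mul]
  have h2 : (C 2 : ℤ⟦X⟧) = 2 := map_ofNat _ 2
  rw [h2]; ring

lemma U_one : U (1 : ℤ⟦X⟧) = 1 := by
  ext n
  rw [coeff_U, coeff_one, coeff_one]
  rcases Nat.eq_zero_or_pos n with h | h
  · subst h; simp
  · rw [if_neg (by omega), if_neg (by omega)]

lemma coeff_t (n : ℕ) : coeff n (X * w ^ 2) = (n : ℤ) := by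
  rcases n with _ | n
  · simp
  · rw [coeff_succ_X_mul, w, coeff_iv_pow_succ (d := 1) (by norm_num) 1 n]
    simp
    ring

lemma coeff_s (n : ℕ) : coeff n s = 3 * (n : ℤ) := by
  unfold s
  have : (3 : ℤ⟦X⟧) = C 3 := (map_ofNat _ 3).symm
  rw [this, coeff_C_mul, coeff_t]

lemma choose_two (n : ℕ) : 2 * ((n.choose 2 : ℕ) : ℤ) = n * (n - 1) := by
  induction n with
  | zero => simp
  | succ n ih =>
    rw [Nat.choose_succ_succ' n 1, Nat.choose_one_right]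
    push_cast
    linear_combination ih

lemma choose_three (n : ℕ) : 6 * ((n.choose 3 : ℕ) : ℤ) = n * (n - 1) * (n - 2) := by
  induction n with
  | zero => simp
  | succ n ih =>
    rw [Nat.choose_succ_succ' n 2]
    have h := choose_two n
    push_cast
    linear_combination ih + 3 * h

lemma coeff_t_sq (n : ℕ) : coeff n ((X * w ^ 2) ^ 2) = (((n + 1).choose 3 : ℕ) : ℤ) := by
  have e : (X * w ^ 2) ^ 2 = X ^ 2 * w ^ 4 := by ring
  rw [e]
  rcases Nat.lt_or_ge n 2 with h | h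
  · rw [coeff_X_pow_mul', if_neg (by omega), Nat.choose_eq_zero_of_lt (by omega)]
    simp
  · obtain ⟨k, rfl⟩ : ∃ k, n = k + 2 := ⟨n - 2, by omega⟩
    rw [coeff_X_pow_mul', if_pos (by omega), w, coeff_iv_pow_succ (d := 1) (by norm_num) 3]
    simp only [one_dvd, if_true, Nat.div_one]
    rw [show k + 2 - 2 = k by omega, show 3 + k = k + 2 + 1 by omega]

lemma coeff_s_sq (n : ℕ) : 2 * coeff n (s ^ 2) = 3 * ((n + 1) * n * (n - 1) : ℤ) := by
  have e : s ^ 2 = C 9 * (X * w ^ 2) ^ 2 := by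
    have : (C 9 : ℤ⟦X⟧) = 9 := map_ofNat _ 9
    rw [this]; unfold s; ring
  rw [e, coeff_C_mul, coeff_t_sq]
  have h := choose_three (n + 1)
  push_cast at h
  linear_combination 3 * h

lemma U_s : U s = 3 * s := by
  ext n
  have : (3 : ℤ⟦X⟧) = C 3 := (map_ofNat _ 3).symm
  rw [coeff_U, coeff_s, this, coeff_C_mul, coeff_s]
  push_cast; ring

lemma U_s_sq : U (s ^ 2) = 27 * s ^ 2 + 12 * s := by
  ext n
  have h27 : (27 : ℤ⟦X⟧) = C 27 := (map_ofNat _ 27).symm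
  have h12 : (12 : ℤ⟦X⟧) = C 12 := (map_ofNat _ 12).symm
  rw [coeff_U, h27, h12, map_add, coeff_C_mul, coeff_C_mul, coeff_s]
  have h1 := coeff_s_sq n
  have h2 := coeff_s_sq (3 * n)
  push_cast at h2
  have : 2 * coeff (3 * n) (s ^ 2) = 2 * (27 * coeff n (s ^ 2) + 12 * (3 * (n : ℤ))) := by
    linear_combination h2 - 27 * h1
  linarith

/-! ### `s ℤ[s]` -/

/-- the element `s Q(s)` -/
noncomputable def E (Q : Polynomial ℤ) : ℤ⟦X⟧ := s * Polynomial.aeval s Q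

lemma E_add (Q R : Polynomial ℤ) : E (Q + R) = E Q + E R := by
  unfold E; rw [map_add]; ring

lemma E_C_mul (a : ℤ) (Q : Polynomial ℤ) : E (Polynomial.C a * Q) = C a * E Q := by
  unfold E; rw [map_mul, Polynomial.aeval_C]
  have : algebraMap ℤ ℤ⟦X⟧ a = C a := rfl
  rw [this]; ring

lemma E_mul (Q R : Polynomial ℤ) : E (Q * R) = E Q * Polynomial.aeval s R := by
  unfold E; rw [map_mul]; ring

lemma E_one : E 1 = s := by unfold E; simp

lemma E_X_mul (Q : Polynomial ℤ) : E (Polynomial.X * Q) = s * E Q := by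
  unfold E; rw [map_mul, Polynomial.aeval_X]

/-- `U` maps the powers of `s` to `3 s ℤ[s]` -/
lemma U_pow (i : ℕ) : ∃ Q, U (s ^ (i + 1)) = 3 * E Q := by
  induction i using Nat.strong_induction_on with
  | _ i ih =>
    rcases i with _ | _ | _ | i
    · exact ⟨1, by rw [zero_add, pow_one, U_s, E_one]⟩
    · refine ⟨Polynomial.C 9 * Polynomial.X + Polynomial.C 4, ?_⟩
      rw [U_s_sq]
      unfold E
      simp only [map_add, map_mul, Polynomial.aeval_C, Polynomial.aeval_X]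
      have h9 : algebraMap ℤ ℤ⟦X⟧ 9 = 9 := map_ofNat _ 9
      have h4 : algebraMap ℤ ℤ⟦X⟧ 4 = 4 := map_ofNat _ 4
      rw [h9, h4]; ring
    · refine ⟨Polynomial.C 3 * (Polynomial.C 27 * Polynomial.X ^ 2 + Polynomial.C 18 * Polynomial.X +
        1), ?_⟩
      rw [show 0 + 1 + 1 + 1 = 0 + 3 by norm_num, U_rec 0]
      simp only [zero_add, pow_one, pow_zero]
      rw [U_s_sq, U_s, U_one]
      unfold E
      simp only [map_add, map_mul, map_pow, map_one, Polynomial.aeval_C, Polynomial.aeval_X]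
      have h3 : algebraMap ℤ ℤ⟦X⟧ 3 = 3 := map_ofNat _ 3
      have h27 : algebraMap ℤ ℤ⟦X⟧ 27 = 27 := map_ofNat _ 27
      have h18 : algebraMap ℤ ℤ⟦X⟧ 18 = 18 := map_ofNat _ 18
      rw [h3, h27, h18]; ring
    · obtain ⟨Q0, h0⟩ := ih i (by omega)
      obtain ⟨Q1, h1⟩ := ih (i + 1) (by omega)
      obtain ⟨Q2, h2⟩ := ih (i + 2) (by omega)
      refine ⟨Polynomial.C 9 * (Polynomial.X * (Q2 + (Polynomial.C 2 * Q1 + Q0))), ?_⟩
      rw [show i + 1 + 1 + 1 + 1 = (i + 1) + 3 by ring, U_rec (i + 1),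
        show i + 1 + 2 = i + 2 + 1 by ring, h0, h1, h2, E_C_mul, E_X_mul, E_add, E_add, E_C_mul]
      have h9 : (C 9 : ℤ⟦X⟧) = 9 := map_ofNat _ 9
      have h2' : (C 2 : ℤ⟦X⟧) = 2 := map_ofNat _ 2
      rw [h9, h2']; ring

lemma E_monomial (n : ℕ) (a : ℤ) : E (Polynomial.monomial n a) = C a * s ^ (n + 1) := by
  rw [← Polynomial.C_mul_X_pow_eq_monomial, E_C_mul]
  unfold E
  rw [map_pow, Polynomial.aeval_X]; ring

/-- `U` maps `s ℤ[s]` to `3 s ℤ[s]` -/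
lemma U_E (Q : Polynomial ℤ) : ∃ R, U (E Q) = 3 * E R := by
  induction Q using Polynomial.induction_on' with
  | add p q hp hq =>
    obtain ⟨R, hR⟩ := hp
    obtain ⟨R', hR'⟩ := hq
    exact ⟨R + R', by rw [E_add, U_add, hR, hR', E_add]; ring⟩
  | monomial n a =>
    obtain ⟨Q, hQ⟩ := U_pow n
    exact ⟨Polynomial.C a * Q, by rw [E_monomial, U_C_mul, hQ, E_C_mul]; ring⟩

/-- the part of `U (s^i)` which is not divisible by `27` -/
noncomputable def e (i : ℕ) : ℤ⟦X⟧ :=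
  if i = 0 then 1 else if i = 1 then 3 * s else if i = 2 then 12 * s else if i = 3 then 9 * s else 0

lemma U_pow_mod (i : ℕ) : ∃ Q, U (s ^ i) = e i + 27 * E Q := by
  rcases i with _ | _ | _ | _ | i
  · refine ⟨0, ?_⟩
    rw [pow_zero, U_one]
    simp [e, E]
  · refine ⟨0, ?_⟩
    rw [zero_add, pow_one, U_s]
    simp [e, E]
  · refine ⟨Polynomial.X, ?_⟩
    rw [show 0 + 1 + 1 = 2 by norm_num, U_s_sq]
    simp only [e, E, Polynomial.aeval_X]
    norm_num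
    ring
  · refine ⟨Polynomial.C 9 * Polynomial.X ^ 2 + Polynomial.C 6 * Polynomial.X, ?_⟩
    rw [show 0 + 1 + 1 + 1 = 0 + 3 by norm_num, U_rec 0]
    simp only [zero_add, pow_one, pow_zero]
    rw [U_s_sq, U_s, U_one]
    unfold E e
    simp only [map_add, map_mul, map_pow, Polynomial.aeval_C, Polynomial.aeval_X]
    have h9 : algebraMap ℤ ℤ⟦X⟧ 9 = 9 := map_ofNat _ 9
    have h6 : algebraMap ℤ ℤ⟦X⟧ 6 = 6 := map_ofNat _ 6
    rw [h9, h6]
    norm_num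
    ring
  · obtain ⟨Q0, h0⟩ := U_pow i
    obtain ⟨Q1, h1⟩ := U_pow (i + 1)
    obtain ⟨Q2, h2⟩ := U_pow (i + 2)
    refine ⟨Polynomial.X * (Q2 + (Polynomial.C 2 * Q1 + Q0)), ?_⟩
    rw [show i + 1 + 1 + 1 + 1 = (i + 1) + 3 by ring, U_rec (i + 1),
      show i + 1 + 2 = i + 2 + 1 by ring, h0, h1, h2, E_X_mul, E_add, E_add, E_C_mul]
    have h2' : (C 2 : ℤ⟦X⟧) = 2 := map_ofNat _ 2
    rw [h2']
    simp only [e]
    rw [if_neg (by omega), if_neg (by omega), if_neg (by omega), if_neg (by omega)]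
    ring

/-- the coefficient of `s` -/
def c (m : ℕ) : ℤ := 3 * m + 12 * ((m.choose 2 : ℕ) : ℤ) + 9 * ((m.choose 3 : ℕ) : ℤ)

lemma two_c (m : ℕ) : 2 * c m = 3 * (m : ℤ) ^ 2 * (m + 1) := by
  unfold c
  linear_combination 12 * choose_two m + 3 * choose_three m

lemma U_G (m : ℕ) : ∃ Q, U ((1 + s) ^ m) = 1 + C (c m) * s + 27 * E Q := by
  choose Q hQ using U_pow_mod
  refine ⟨∑ i ∈ range (m + 1), Polynomial.C ((m.choose i : ℕ) : ℤ) * Q i, ?_⟩
  have h1 : (1 + s) ^ m = ∑ i ∈ range (m + 1), C ((m.choose i : ℕ) : ℤ) * s ^ i := by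
    rw [add_comm, add_pow]
    refine sum_congr rfl fun i _ => ?_
    rw [one_pow, mul_one, mul_comm]
    congr 1
  have h2 : ∀ (t : Finset ℕ), E (∑ i ∈ t, Polynomial.C ((m.choose i : ℕ) : ℤ) * Q i) =
      ∑ i ∈ t, C ((m.choose i : ℕ) : ℤ) * E (Q i) := by
    classical
    intro t
    induction t using Finset.induction_on with
    | empty => simp [E]
    | insert a t ha ih => rw [sum_insert ha, sum_insert ha, E_add, ih, E_C_mul]
  have h3 : ∑ i ∈ range (m + 1), C ((m.choose i : ℕ) : ℤ) * e i =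
      ∑ i ∈ range 4, C ((m.choose i : ℕ) : ℤ) * e i := by
    have ha : ∑ i ∈ range (m + 1), C ((m.choose i : ℕ) : ℤ) * e i =
        ∑ i ∈ range (m + 4), C ((m.choose i : ℕ) : ℤ) * e i := by
      apply sum_subset
      · intro i hi; rw [mem_range] at *; omega
      · intro i _ hi
        rw [mem_range] at hi
        rw [Nat.choose_eq_zero_of_lt (by omega)]
        simp
    have hb : ∑ i ∈ range 4, C ((m.choose i : ℕ) : ℤ) * e i =
        ∑ i ∈ range (m + 4), C ((m.choose i : ℕ) : ℤ) * e i := by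
      apply sum_subset
      · intro i hi; rw [mem_range] at *; omega
      · intro i _ hi
        rw [mem_range] at hi
        have : e i = 0 := by
          unfold e
          rw [if_neg (by omega), if_neg (by omega), if_neg (by omega), if_neg (by omega)]
        rw [this, mul_zero]
    rw [ha, hb]
  rw [h1, U_sum, h2]
  have h4 : ∀ i ∈ range (m + 1), U (C ((m.choose i : ℕ) : ℤ) * s ^ i) =
      C ((m.choose i : ℕ) : ℤ) * e i + 27 * (C ((m.choose i : ℕ) : ℤ) * E (Q i)) := by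
    intro i _
    rw [U_C_mul, hQ i]; ring
  rw [sum_congr rfl h4, sum_add_distrib, ← mul_sum, h3]
  congr 1
  simp only [sum_range_succ, sum_range_zero, zero_add]
  have e0 : e 0 = 1 := by simp [e]
  have e1 : e 1 = 3 * s := by simp [e]
  have e2 : e 2 = 12 * s := by simp [e]
  have e3 : e 3 = 9 * s := by simp [e]
  rw [e0, e1, e2, e3, Nat.choose_zero_right, Nat.choose_one_right]
  unfold c
  simp only [map_add, map_mul, map_natCast, Nat.cast_one, map_one, map_ofNat]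
  ring

/-! ### The generating function -/

/-- `F = ∑ d_m(n) x^n` for `p = 3` -/
noncomputable def F (m : ℕ) : ℤ⟦X⟧ := mk fun n => d 3 m n

/-- partial product -/
noncomputable def FN (m N : ℕ) : ℤ⟦X⟧ := w ^ m * ∏ j ∈ range N, (iv (3 ^ j)) ^ (2 * m)

lemma iv_one_eq : invOfUnit (1 - X : ℤ⟦X⟧) 1 = w := by
  unfold w iv; rw [pow_one]

lemma d_eq (m n : ℕ) : d 3 m n = coeff n (FN m (n + 1)) := by
  unfold d FN iv
  rw [iv_one_eq]

lemma FN_succ_coeff (m : ℕ) {n N : ℕ} (h : n < N) : coeff n (FN m (N + 1)) = coeff n (FN m N) := by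
  unfold FN
  rw [prod_range_succ]
  have e : w ^ m * ((∏ j ∈ range N, iv (3 ^ j) ^ (2 * m)) * iv (3 ^ N) ^ (2 * m)) =
    iv (3 ^ N) ^ (2 * m) * (w ^ m * ∏ j ∈ range N, iv (3 ^ j) ^ (2 * m)) := by ring
  rw [e, coeff_iv_pow_mul_of_lt]
  exact lt_of_lt_of_le h (Nat.lt_pow_self (by norm_num)).le

lemma coeff_FN (m : ℕ) {n N : ℕ} (h : n < N) : coeff n (FN m N) = coeff n (F m) := by
  obtain ⟨k, rfl⟩ : ∃ k, N = n + 1 + k := ⟨N - (n + 1), by omega⟩
  rw [F, coeff_mk, d_eq]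
  clear h
  induction k with
  | zero => rfl
  | succ k ih => rw [← add_assoc, FN_succ_coeff m (by omega), ih]

lemma V_iv (j : ℕ) : V (iv (3 ^ j)) = iv (3 ^ (j + 1)) := by
  have h : iv (3 ^ j) * (1 - X ^ (3 ^ j)) = 1 := iv_mul (by positivity)
  have h1 := congrArg (expand 3 h3) h
  rw [map_mul, map_sub, map_one, map_pow, expand_X, ← pow_mul] at h1
  have h2 : V (iv (3 ^ j)) * (1 - X ^ (3 ^ (j + 1))) ^ 1 = 1 := by
    rw [pow_one, pow_succ 3 j, mul_comm (3 ^ j) 3]; exact h1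
  have h4 := eq_iv_pow (d := 3 ^ (j + 1)) (by positivity) h2
  rwa [pow_one] at h4

lemma FN_rec (m N : ℕ) : FN m (N + 1) = (1 + s) ^ m * V (FN m N) := by
  have h0 : iv (3 ^ 0) = w := by unfold w; norm_num
  have h1 : V (FN m N) = V w ^ m * ∏ j ∈ range N, iv (3 ^ (j + 1)) ^ (2 * m) := by
    unfold FN V
    rw [map_mul, map_pow, map_prod]
    congr 1
    refine prod_congr rfl fun j _ => ?_
    rw [map_pow]
    congr 1
    exact V_iv j
  rw [h1]
  unfold FN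
  rw [prod_range_succ', h0, ← G_eq]
  have h2 : ((1 - X ^ 3) * V w) ^ m = 1 := by rw [Vw, one_pow]
  calc w ^ m * ((∏ k ∈ range N, iv (3 ^ (k + 1)) ^ (2 * m)) * w ^ (2 * m))
      = (w ^ 3) ^ m * ∏ k ∈ range N, iv (3 ^ (k + 1)) ^ (2 * m) := by ring
    _ = (w ^ 3) ^ m * ((1 - X ^ 3) * V w) ^ m * ∏ k ∈ range N, iv (3 ^ (k + 1)) ^ (2 * m) := by
      rw [h2, mul_one]
    _ = _ := by rw [mul_pow, mul_pow]; ring

/-- coefficients of a product only depend on the first coefficients of the factors -/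
lemma coeff_mul_congr (f g g' : ℤ⟦X⟧) (n : ℕ) (h : ∀ k ≤ n, coeff k g = coeff k g') :
    coeff n (f * g) = coeff n (f * g') := by
  rw [coeff_mul, coeff_mul]
  refine sum_congr rfl fun x hx => ?_
  have := mem_antidiagonal.1 hx
  rw [h x.2 (by omega)]

lemma coeff_V_congr (g g' : ℤ⟦X⟧) (n : ℕ) (h : ∀ k ≤ n, coeff k g = coeff k g') :
    ∀ k ≤ n, coeff k (V g) = coeff k (V g') := by
  intro k hk
  unfold V
  rw [coeff_expand, coeff_expand]
  split_ifs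
  · exact h _ (le_trans (Nat.div_le_self _ _) hk)
  · rfl

/-- the functional equation -/
lemma F_eq (m : ℕ) : F m = (1 + s) ^ m * V (F m) := by
  ext n
  rw [← coeff_FN m (show n < n + 1 + 1 by omega), FN_rec]
  apply coeff_mul_congr
  apply coeff_V_congr
  intro k hk
  exact coeff_FN m (by omega)

lemma U_mul_F (m : ℕ) (f : ℤ⟦X⟧) : U (f * F m) = U (f * (1 + s) ^ m) * F m := by
  conv_lhs => rw [F_eq m, ← mul_assoc]
  rw [U_mul_V]

lemma aeval_one_add (m : ℕ) : Polynomial.aeval s ((1 + Polynomial.X : Polynomial ℤ) ^ m) =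
    (1 + s) ^ m := by
  rw [map_pow, map_add, map_one, Polynomial.aeval_X]

/-- divisibility of the coefficients of `s Q(s) F` -/
lemma dvd_E (m a : ℕ) : ∀ (n : ℕ) (Q : Polynomial ℤ), (3 : ℤ) ^ (a + 1) ∣ coeff (3 ^ a * n) (E Q * F m) := by
  induction a with
  | zero =>
    intro n Q
    have : E Q * F m = C 3 * (X * w ^ 2 * Polynomial.aeval s Q * F m) := by
      have h3 : (C 3 : ℤ⟦X⟧) = 3 := map_ofNat _ 3
      have h4 : E Q * F m = s * (Polynomial.aeval s Q * F m) := by unfold E; ring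
      have h5 : ∀ g : ℤ⟦X⟧, s * g = 3 * (X * w ^ 2) * g := fun g => rfl
      rw [h3, h4, h5]; ring
    rw [this, coeff_C_mul, zero_add, pow_one]
    exact Dvd.intro _ rfl
  | succ a ih =>
    intro n Q
    obtain ⟨R, hR⟩ := U_E (Q * (1 + Polynomial.X) ^ m)
    rw [show 3 ^ (a + 1) * n = 3 * (3 ^ a * n) by ring, ← coeff_U, U_mul_F, ← aeval_one_add,
      ← E_mul, hR]
    have h3 : (3 : ℤ⟦X⟧) = C 3 := (map_ofNat _ 3).symm
    rw [h3, mul_assoc, coeff_C_mul, pow_succ, mul_comm]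
    exact mul_dvd_mul_left 3 (ih n R)

/-- the first difference -/
lemma diff_eq (m : ℕ) : ∃ Q, ∀ n, d 3 m (3 * n) - d 3 m n =
    c m * coeff n (E 1 * F m) + 27 * coeff n (E Q * F m) := by
  obtain ⟨Q, hQ⟩ := U_G m
  refine ⟨Q, fun n => ?_⟩
  have h1 : coeff n (U (F m)) = d 3 m (3 * n) := by rw [coeff_U, F, coeff_mk]
  have h2 : coeff n (F m) = d 3 m n := by rw [F, coeff_mk]
  have h3 : U (F m) = U ((1 + s) ^ m) * F m := by
    have := U_mul_F m 1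
    rwa [one_mul, one_mul] at this
  rw [← h1, ← h2, h3, hQ, E_one]
  have h27 : (27 : ℤ⟦X⟧) = C 27 := (map_ofNat _ 27).symm
  rw [h27]
  have e : (1 + C (c m) * s + C 27 * E Q) * F m = F m + C (c m) * (s * F m) + C 27 * (E Q * F m) := by
    ring
  rw [e, map_add, map_add, coeff_C_mul, coeff_C_mul]
  ring

lemma diff_dvd (m : ℕ) (k : ℕ) (hk : k ≤ 3) (hc : (3 : ℤ) ^ k ∣ c m) (a n : ℕ) :
    (3 : ℤ) ^ (a + 1 + k) ∣ d 3 m (3 * (3 ^ a * n)) - d 3 m (3 ^ a * n) := by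
  obtain ⟨Q, hQ⟩ := diff_eq m
  rw [hQ, pow_add]
  apply dvd_add
  · rw [mul_comm]; exact mul_dvd_mul hc (dvd_E m a n 1)
  · rw [mul_comm]
    apply mul_dvd_mul _ (dvd_E m a n Q)
    have : (27 : ℤ) = 3 ^ 3 := by norm_num
    rw [this]
    exact pow_dvd_pow 3 hk

lemma diff_two_dvd (m : ℕ) (k : ℕ) (hk : k ≤ 3) (hc : (3 : ℤ) ^ k ∣ c m) (a n : ℕ) :
    (3 : ℤ) ^ (a + 1 + k) ∣ d 3 m (3 ^ 2 * (3 ^ a * n)) - d 3 m (3 ^ a * n) := by
  have h1 := diff_dvd m k hk hc a n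
  have h2 := diff_dvd m k hk hc (a + 1) n
  have e : d 3 m (3 ^ 2 * (3 ^ a * n)) - d 3 m (3 ^ a * n) =
    (d 3 m (3 * (3 ^ (a + 1) * n)) - d 3 m (3 ^ (a + 1) * n)) +
    (d 3 m (3 * (3 ^ a * n)) - d 3 m (3 ^ a * n)) := by
    have e1 : 3 * (3 ^ (a + 1) * n) = 3 ^ 2 * (3 ^ a * n) := by ring
    have e2 : 3 ^ (a + 1) * n = 3 * (3 ^ a * n) := by ring
    rw [e1, e2]; ring
  rw [e]
  apply dvd_add _ h1
  exact dvd_trans (pow_dvd_pow 3 (by omega)) h2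

/-- `F ≡ 1 (mod 3)` -/
lemma d_mod (m : ℕ) : ∀ n, 1 ≤ n → (3 : ℤ) ∣ coeff n (F m) := by
  intro n
  induction n using Nat.strong_induction_on with
  | _ n ih =>
    intro hn
    -- `(1+s)^m = 1 + 3 h`
    have hdiv : ∃ h : ℤ⟦X⟧, (1 + s) ^ m = 1 + C 3 * h := by
      have h3 : (C 3 : ℤ⟦X⟧) = 3 := map_ofNat _ 3
      rw [h3]
      have : (3 : ℤ⟦X⟧) ∣ (1 + s) ^ m - 1 := by
        have h1 := sub_dvd_pow_sub_pow (1 + s) 1 m
        rw [one_pow] at h1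
        refine dvd_trans ?_ h1
        rw [add_sub_cancel_left]; unfold s
        exact Dvd.intro _ rfl
      obtain ⟨h, hh⟩ := this
      exact ⟨h, by rw [← hh]; ring⟩
    obtain ⟨h, hh⟩ := hdiv
    rw [F_eq m, hh]
    have e : (1 + C 3 * h) * V (F m) = V (F m) + C 3 * (h * V (F m)) := by ring
    rw [e, map_add, coeff_C_mul]
    apply dvd_add _ (Dvd.intro _ rfl)
    unfold V
    rw [coeff_expand]
    split_ifs with h4
    · obtain ⟨k, rfl⟩ := h4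
      rw [Nat.mul_div_cancel_left k (by norm_num : 0 < 3)]
      exact ih k (by omega) (by omega)
    · exact dvd_zero _

lemma coeff_zero_F (m : ℕ) : coeff 0 (F m) = 1 := by
  rw [← coeff_FN m (show 0 < 1 by norm_num)]
  unfold FN
  have h : constantCoeff w = 1 := by
    have h1 := congrArg (constantCoeff (R := ℤ)) hw
    simpa using h1
  have h0 : iv (3 ^ 0) = w := by unfold w; norm_num
  rw [prod_range_one, h0, coeff_zero_eq_constantCoeff_apply, map_mul, map_pow, map_pow, h]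
  simp

/-- `[x^n] (x/(1-x)^2 F) ≡ n (mod 3)` -/
lemma tF_mod (m n : ℕ) : ∃ z : ℤ, (coeff n (X * w ^ 2 * F m) : ℤ) = n + 3 * z := by
  have h1 : (coeff n (X * w ^ 2 * (F m - 1)) : ℤ) = coeff n (X * w ^ 2 * F m) - (n : ℤ) := by
    rw [mul_sub, mul_one, map_sub, coeff_t]
  have h2 : (3 : ℤ) ∣ coeff n (X * w ^ 2 * (F m - 1)) := by
    rw [coeff_mul]
    apply dvd_sum
    intro x _
    apply Dvd.dvd.mul_left
    rw [map_sub, coeff_one]
    split_ifs with h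
    · rw [h, coeff_zero_F]; simp
    · rw [sub_zero]; exact d_mod m _ (by omega)
  obtain ⟨z, hz⟩ := h2
  exact ⟨z, by rw [← hz, h1]; ring⟩

/-- the exact value for `n` prime to `3` -/
lemma exact_val (m : ℕ) (u : ℤ) (hc : c m = 9 * u) (hu : ¬ (3 : ℤ) ∣ u) (n : ℕ) (hn : ¬ 3 ∣ n) :
    ¬ (3 : ℤ) ^ 4 ∣ d 3 m (3 ^ 2 * n) - d 3 m n := by
  intro hd
  obtain ⟨Q, hQ⟩ := diff_eq m
  have h1 := diff_dvd m 2 (by norm_num) (by rw [hc]; exact ⟨u, by ring⟩) 1 n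
  have h2 : d 3 m (3 ^ 2 * n) - d 3 m n = (d 3 m (3 * (3 ^ 1 * n)) - d 3 m (3 ^ 1 * n)) +
      (d 3 m (3 * n) - d 3 m n) := by
    rw [show 3 * (3 ^ 1 * n) = 3 ^ 2 * n by ring, show 3 ^ 1 * n = 3 * n by ring]; ring
  have h3 : (3 : ℤ) ^ 4 ∣ d 3 m (3 * n) - d 3 m n := by
    have := dvd_sub hd h1
    rwa [h2, add_sub_cancel_left] at this
  obtain ⟨z, hz⟩ := tF_mod m n
  have h4 : coeff n (E 1 * F m) = 3 * (n + 3 * z) := by
    rw [← hz, E_one, s]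
    have h3 : (3 : ℤ⟦X⟧) = C 3 := (map_ofNat _ 3).symm
    rw [h3, mul_assoc, coeff_C_mul]
  obtain ⟨v, hv⟩ := dvd_E m 0 n Q
  rw [pow_zero, one_mul, zero_add, pow_one] at hv
  rw [hQ, hc, h4, hv] at h3
  obtain ⟨y, hy⟩ := h3
  have h5 : (3 : ℤ) ∣ u * n := ⟨y - u * z - v, by linarith⟩
  rcases (Int.prime_three).dvd_or_dvd h5 with h | h
  · exact hu h
  · exact hn (by exact_mod_cast h)

/-! ### The statement -/

/-- Q2 of the problem. -/
def QTwo : Prop :=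
  ∀ p m : ℕ, p.Prime → 3 ≤ p → 1 ≤ m → m % p = p - 1 →
    (∀ n : ℕ, 1 ≤ n → emultiplicity (p : ℤ) n + (4 - if p = 3 then 1 else 0) ≤
      emultiplicity (p : ℤ) (d p m (p ^ 2 * n) - d p m n)) ∧
    {n : ℕ | 1 ≤ n ∧ emultiplicity (p : ℤ) n + (4 - if p = 3 then 1 else 0) =
      emultiplicity (p : ℤ) (d p m (p ^ 2 * n) - d p m n)}.Infinite

lemma dvd_c (m : ℕ) (hm : m % 3 = 2) : (3 : ℤ) ^ 2 ∣ c m := by
  have h := two_c m
  obtain ⟨k, hk⟩ : ∃ k, m = 3 * k + 2 := ⟨m / 3, by omega⟩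
  have h1 : 2 * c m = 9 * ((m : ℤ) ^ 2 * (k + 1)) := by
    rw [h, hk]; push_cast; ring
  have h2 : (9 : ℤ) ∣ 2 * c m := ⟨_, h1⟩
  rw [show (3 : ℤ) ^ 2 = 9 by norm_num]
  omega

lemma dvd_c_nine (m : ℕ) : m % 3 = 2 → (m % 9 = 8 ↔ (3 : ℤ) ^ 3 ∣ c m) := by
  intro hm
  have h := two_c m
  obtain ⟨k, hk⟩ : ∃ k, m = 3 * k + 2 := ⟨m / 3, by omega⟩
  have h1 : 2 * c m = 9 * ((m : ℤ) ^ 2 * (k + 1)) := by
    rw [h, hk]; push_cast; ring
  rw [show (3 : ℤ) ^ 3 = 27 by norm_num]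
  constructor
  · intro h9
    obtain ⟨j, hj⟩ : ∃ j, k = 3 * j + 2 := ⟨k / 3, by omega⟩
    have h2 : (27 : ℤ) ∣ 2 * c m := ⟨(m : ℤ) ^ 2 * (j + 1), by rw [h1, hj]; push_cast; ring⟩
    omega
  · rintro ⟨y, hy⟩
    have h2 : (m : ℤ) ^ 2 * (k + 1) = 3 * (2 * y) := by
      have : 9 * ((m : ℤ) ^ 2 * (k + 1)) = 9 * (3 * (2 * y)) := by rw [← h1, hy]; ring
      linarith
    have h3 : (3 : ℤ) ∣ (m : ℤ) ^ 2 * (k + 1) := ⟨_, h2⟩
    rcases (Int.prime_three).dvd_or_dvd h3 with h4 | h4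
    · have h5 := (Int.prime_three).dvd_of_dvd_pow h4
      have h6 : 3 ∣ m := by exact_mod_cast h5
      omega
    · have h6 : 3 ∣ k + 1 := by exact_mod_cast h4
      omega

lemma split (n : ℕ) (hn : 1 ≤ n) : ∃ a k : ℕ, n = 3 ^ a * k ∧ ¬ 3 ∣ k := by
  obtain ⟨a, k, h1, h2⟩ := Nat.exists_eq_pow_mul_and_not_dvd (show n ≠ 0 by omega) 3 (by norm_num)
  exact ⟨a, k, h2, h1⟩

lemma emul_n {a k : ℕ} (hk : ¬ 3 ∣ k) : emultiplicity ((3 : ℕ) : ℤ) ((3 ^ a * k : ℕ) : ℤ) = a := by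
  rw [emultiplicity_eq_coe]
  push_cast
  refine ⟨Dvd.intro _ rfl, ?_⟩
  rw [pow_succ]
  intro h
  have := (mul_dvd_mul_iff_left (pow_ne_zero a (by norm_num : (3 : ℤ) ≠ 0))).1 h
  exact hk (by exact_mod_cast this)

/-- **Q2 is false, and the case `p = 3` in full.**  (1) Q2 does not hold.  (2) For `p = 3` and every
`m ≡ 2 (mod 3)` the inequality of Q2 holds: `ν_3(d_m(9n) - d_m(n)) ≥ ν_3(n) + 3` for all `n ≥ 1`; it is an
equality for infinitely many `n` if and only if `m` is not `8` modulo `9`; and for `m ≡ 8 (mod 9)` even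
`ν_3(d_m(9n) - d_m(n)) ≥ ν_3(n) + 4` for all `n ≥ 1`. -/
theorem result : ¬ QTwo ∧ ∀ m : ℕ, m % 3 = 2 →
    (∀ n : ℕ, 1 ≤ n → emultiplicity ((3 : ℕ) : ℤ) n + 3 ≤
      emultiplicity ((3 : ℕ) : ℤ) (d 3 m (3 ^ 2 * n) - d 3 m n)) ∧
    ({n : ℕ | 1 ≤ n ∧ emultiplicity ((3 : ℕ) : ℤ) n + 3 =
      emultiplicity ((3 : ℕ) : ℤ) (d 3 m (3 ^ 2 * n) - d 3 m n)}.Infinite ↔ m % 9 ≠ 8) ∧
    (m % 9 = 8 → ∀ n : ℕ, 1 ≤ n → emultiplicity ((3 : ℕ) : ℤ) n + 4 ≤
      emultiplicity ((3 : ℕ) : ℤ) (d 3 m (3 ^ 2 * n) - d 3 m n)) := by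
  have key : ∀ m : ℕ, m % 3 = 2 → ∀ k ≤ 3, (3 : ℤ) ^ k ∣ c m → ∀ n : ℕ, 1 ≤ n →
      emultiplicity ((3 : ℕ) : ℤ) n + (k + 1 : ℕ) ≤
        emultiplicity ((3 : ℕ) : ℤ) (d 3 m (3 ^ 2 * n) - d 3 m n) := by
    intro m hm k hk hc n hn
    obtain ⟨a, l, rfl, hl⟩ := split n hn
    rw [emul_n hl]
    have h1 : ((a : ℕ∞) + ((k + 1 : ℕ) : ℕ∞)) = ((a + (k + 1) : ℕ) : ℕ∞) := by push_cast; rfl
    rw [h1, ← pow_dvd_iff_le_emultiplicity]
    have h2 := diff_two_dvd m k hk hc a l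
    push_cast
    rwa [show a + (k + 1) = a + 1 + k by ring]
  have part : ∀ m : ℕ, m % 3 = 2 →
    (∀ n : ℕ, 1 ≤ n → emultiplicity ((3 : ℕ) : ℤ) n + 3 ≤
      emultiplicity ((3 : ℕ) : ℤ) (d 3 m (3 ^ 2 * n) - d 3 m n)) ∧
    ({n : ℕ | 1 ≤ n ∧ emultiplicity ((3 : ℕ) : ℤ) n + 3 =
      emultiplicity ((3 : ℕ) : ℤ) (d 3 m (3 ^ 2 * n) - d 3 m n)}.Infinite ↔ m % 9 ≠ 8) ∧
    (m % 9 = 8 → ∀ n : ℕ, 1 ≤ n → emultiplicity ((3 : ℕ) : ℤ) n + 4 ≤
      emultiplicity ((3 : ℕ) : ℤ) (d 3 m (3 ^ 2 * n) - d 3 m n)) := by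
    intro m hm
    have hge := key m hm 2 (by norm_num) (dvd_c m hm)
    have hge4 : m % 9 = 8 → ∀ n : ℕ, 1 ≤ n → emultiplicity ((3 : ℕ) : ℤ) n + 4 ≤
      emultiplicity ((3 : ℕ) : ℤ) (d 3 m (3 ^ 2 * n) - d 3 m n) := fun h9 =>
        key m hm 3 (by norm_num) ((dvd_c_nine m hm).1 h9)
    refine ⟨hge, ⟨?_, ?_⟩, hge4⟩
    · intro hinf h9
      obtain ⟨n, hn1, hn2⟩ := hinf.nonempty
      have h1 := hge4 h9 n hn1
      rw [← hn2] at h1
      obtain ⟨a, l, rfl, hl⟩ := split n hn1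
      rw [emul_n hl] at h1
      have h2 : ((a + 4 : ℕ) : ℕ∞) ≤ ((a + 3 : ℕ) : ℕ∞) := by push_cast; exact h1
      have := Nat.cast_le.1 h2
      omega
    · intro h9
      obtain ⟨u, hu⟩ := dvd_c m hm
      have hu3 : ¬ (3 : ℤ) ∣ u := by
        rintro ⟨y, hy⟩
        exact h9 ((dvd_c_nine m hm).2 ⟨y, by rw [hu, hy]; ring⟩)
      have hinj : Function.Injective (fun k : ℕ => 3 * k + 1) := fun a b h => by
        simp only at h; omega
      apply Set.infinite_of_injective_forall_mem hinj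
      intro k
      refine ⟨by omega, ?_⟩
      have h3 : ¬ 3 ∣ 3 * k + 1 := by omega
      have h4 : emultiplicity ((3 : ℕ) : ℤ) ((3 * k + 1 : ℕ) : ℤ) = 0 := by
        have := emul_n (a := 0) h3
        rwa [pow_zero, one_mul] at this
      have h5 := hge (3 * k + 1) (by omega)
      rw [h4, zero_add] at h5 ⊢
      apply le_antisymm h5
      have h6 := exact_val m u (by rw [hu]; norm_num) hu3 (3 * k + 1) h3
      by_contra hlt
      push Not at hlt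
      apply h6
      have h7 : ((4 : ℕ) : ℕ∞) ≤
          emultiplicity ((3 : ℕ) : ℤ) (d 3 m (3 ^ 2 * (3 * k + 1)) - d 3 m (3 * k + 1)) := by
        have := Order.add_one_le_of_lt hlt
        exact this
      rw [← pow_dvd_iff_le_emultiplicity] at h7
      exact_mod_cast h7
  refine ⟨fun h => ?_, part⟩
  obtain ⟨-, h2⟩ := h 3 8 (by norm_num) le_rfl (by norm_num) (by norm_num)
  have h3 := (part 8 (by norm_num)).2.1
  have e : (4 - if (3 : ℕ) = 3 then 1 else 0 : ℕ∞) = 3 := by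
    rw [if_pos rfl]; rfl
  rw [e] at h2
  exact h3.1 h2 (by norm_num)

end Pool.Agent.Results.MP_26251e_nt.QTwoFailsForThree
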